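import Mathlib

/-!
# Powers of matrices and spectral radius: the polynomial part

`R L q` is the remainder of `X ^ q` modulo `∏ (X - a)`, `a ∈ L`.
-/

set_option autoImplicit false

namespace Pool.Agent.HX6.CE

open Polynomial

variable {A : Type} [CommRing A]

/-- the remainder of `X ^ q` modulo `∏ (X - a)` -/
noncomputable def R : List A → ℕ → A[X]
  | [], _ => 0
  | _ :: _, 0 => 1
  | a :: L, q + 1 => C a * R (a :: L) q + (X - C a) * R L q

/-- the product -/
noncomputable def P (L : List A) : A[X] := (L.map fun a => X - C a).prod

theorem R_nil (q : ℕ) : R ([] : List A) q = 0 := by simp [R]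

theorem R_zero (a : A) (L : List A) : R (a :: L) 0 = 1 := by simp [R]

theorem R_succ (a : A) (L : List A) (q : ℕ) :
    R (a :: L) (q + 1) = C a * R (a :: L) q + (X - C a) * R L q := by
  rw [R]

theorem dvd_R (L : List A) : ∀ q, P L ∣ X ^ q - R L q := by
  induction L with
  | nil => intro q; simp [P]
  | cons a L ih =>
    intro q
    induction q with
    | zero => simp [R_zero]
    | succ q ihq =>
      have e : X ^ (q + 1) - R (a :: L) (q + 1) =
          C a * (X ^ q - R (a :: L) q) + (X - C a) * (X ^ q - R L q) := by
        rw [R_succ, pow_succ]; ring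
      rw [e]
      have h1 : P (a :: L) = (X - C a) * P L := by simp [P]
      refine dvd_add (Dvd.dvd.mul_left ihq _) ?_
      rw [h1]
      exact mul_dvd_mul_left _ (ih q)

theorem R_small (L : List A) : ∀ q, q < L.length → R L q = X ^ q := by
  induction L with
  | nil => intro q h; simp at h
  | cons a L ih =>
    intro q h
    induction q with
    | zero => simp [R_zero]
    | succ q ihq =>
      have h1 : q < L.length := by simpa using h
      rw [R_succ, ihq (by simp; omega), ih q h1, pow_succ]
      ring

theorem coeff_R_succ (a : A) (L : List A) (q k : ℕ) :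
    (R (a :: L) (q + 1)).coeff k = a * (R (a :: L) q).coeff k +
      ((if k = 0 then 0 else (R L q).coeff (k - 1)) - a * (R L q).coeff k) := by
  rw [R_succ, coeff_add, coeff_C_mul, sub_mul, coeff_sub, coeff_C_mul]
  congr 2
  rcases k with _ | k
  · simp
  · simp [coeff_X_mul]

theorem coeff_large (L : List A) : ∀ q k, L.length ≤ k → (R L q).coeff k = 0 := by
  induction L with
  | nil => intro q k _; simp [R_nil]
  | cons a L ih =>
    intro q
    induction q with
    | zero =>
      intro k hk
      rw [R_zero, coeff_one, if_neg]
      simp at hk; omega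
    | succ q ihq =>
      intro k hk
      have h1 : L.length + 1 ≤ k := by simpa using hk
      rw [coeff_R_succ, ihq k hk, ih q k (by omega), if_neg (by omega), ih q (k - 1) (by omega)]
      ring

/-- real coefficients for equal roots -/
noncomputable def co (r : ℝ) (n q k : ℕ) : ℝ := (R (List.replicate n r) q).coeff k

theorem map_R (r : ℝ) (n : ℕ) : ∀ q,
    R (List.replicate n (r : ℂ)) q = (R (List.replicate n r) q).map (algebraMap ℝ ℂ) := by
  induction n with
  | zero => intro q; simp [R_nil]
  | succ n ih =>
    intro q
    induction q with
    | zero => simp [List.replicate_succ, R_zero]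
    | succ q ihq =>
      rw [List.replicate_succ, List.replicate_succ] at *
      rw [R_succ, R_succ, ihq, ih q]
      simp

theorem coeff_bound {r : ℝ} (hr : 0 ≤ r) (L : List ℂ) : (∀ a ∈ L, ‖a‖ ≤ r) → ∀ q, L.length ≤ q + 1 →
    ∀ k, ‖(R L q).coeff k‖ ≤ (-1) ^ (L.length + k + 1) * co r L.length q k := by
  induction L with
  | nil => intro _ q _ k; simp [R_nil, co]
  | cons a L ih =>
    intro ha q
    have ha' : ∀ b ∈ L, ‖b‖ ≤ r := fun b hb => ha b (List.mem_cons_of_mem _ hb)
    have ha0 : ‖a‖ ≤ r := ha a List.mem_cons_self
    induction q with
    | zero =>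
      intro hq k
      have hL : L.length = 0 := by simpa using hq
      have hL' : L = [] := List.length_eq_zero_iff.1 hL
      subst hL'
      rcases k with _ | k
      · simp [R_zero, co, List.replicate_succ]
      · simp [R_zero, co, List.replicate_succ, coeff_one]
    | succ q ihq =>
      intro hq k
      have hq' : L.length ≤ q + 1 := by simpa using hq
      have hlen : (a :: L).length = L.length + 1 := by simp
      rcases Nat.lt_or_ge (q + 1) (L.length + 1) with hlt | hge
      · have e : q + 1 = L.length := by omega
        rw [R_small _ _ (by rw [hlen]; exact hlt), co, R_small _ _ (by simp; omega), coeff_X_pow,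
          coeff_X_pow]
        split_ifs with h
        · rw [h, hlen, e]
          have : (-1 : ℝ) ^ (L.length + 1 + L.length + 1) = 1 := by
            rw [show L.length + 1 + L.length + 1 = 2 * (L.length + 1) by ring, pow_mul]; norm_num
          rw [this]; simp
        · simp
      · have h1 := ihq (by rw [hlen]; exact hge) k
        have h2 := ih ha' q (by omega) k
        have h3 := ih ha' q (by omega) (k - 1)
        have e1 : co r (a :: L).length (q + 1) k = r * co r (a :: L).length q k +
            ((if k = 0 then 0 else co r L.length q (k - 1)) - r * co r L.length q k) := by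
          rw [hlen]
          unfold co
          rw [List.replicate_succ, coeff_R_succ]
        rw [e1, coeff_R_succ]
        have h4 : ‖a * (R (a :: L) q).coeff k‖ ≤ r * ((-1) ^ ((a :: L).length + k + 1) *
            co r (a :: L).length q k) := by
          rw [norm_mul]; exact mul_le_mul ha0 h1 (norm_nonneg _) hr
        have h5 : ‖a * (R L q).coeff k‖ ≤ r * ((-1) ^ (L.length + k + 1) * co r L.length q k) := by
          rw [norm_mul]; exact mul_le_mul ha0 h2 (norm_nonneg _) hr
        have h6 : ‖(if k = 0 then 0 else (R L q).coeff (k - 1))‖ ≤
            (-1) ^ ((a :: L).length + k + 1) * (if k = 0 then 0 else co r L.length q (k - 1)) := by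
          split_ifs with h
          · simp
          · refine h3.trans (le_of_eq ?_)
            congr 1
            rw [hlen, show L.length + 1 + k + 1 = (L.length + (k - 1) + 1) + 2 by omega,
              pow_add (-1 : ℝ) (L.length + (k - 1) + 1) 2]
            norm_num
        have h7 : (-1 : ℝ) ^ ((a :: L).length + k + 1) = -(-1) ^ (L.length + k + 1) := by
          rw [hlen, show L.length + 1 + k + 1 = (L.length + k + 1) + 1 by ring, pow_succ]; ring
        calc ‖a * (R (a :: L) q).coeff k +
              ((if k = 0 then 0 else (R L q).coeff (k - 1)) - a * (R L q).coeff k)‖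
            ≤ ‖a * (R (a :: L) q).coeff k‖ + (‖(if k = 0 then 0 else (R L q).coeff (k - 1))‖ +
              ‖a * (R L q).coeff k‖) := (norm_add_le _ _).trans (by gcongr; exact norm_sub_le _ _)
          _ ≤ _ := by
            rw [mul_add, mul_sub]
            have h8 : (-1 : ℝ) ^ ((a :: L).length + k + 1) * (r * co r L.length q k) =
                -(r * ((-1) ^ (L.length + k + 1) * co r L.length q k)) := by rw [h7]; ring
            rw [h8]
            linarith

end Pool.Agent.HX6.CE
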