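import Pool.Agent.HX6.CE.A

/-!
# Powers of matrices and spectral radius: matrices
-/

set_option autoImplicit false

namespace Pool.Agent.HX6.CE

open Polynomial Matrix
open scoped Matrix.Norms.Operator

/-- the companion matrix of `(X - r) ^ n`: ones above the diagonal, the last row is minus the coefficients -/
noncomputable def Tr (n : ℕ) (r : ℝ) : Matrix (Fin n) (Fin n) ℂ := fun i j =>
  if (i : ℕ) + 1 = n then -((n.choose j : ℂ) * (-(r : ℂ)) ^ (n - j)) else
    if (i : ℕ) + 1 = j then 1 else 0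

theorem coeff_P (n : ℕ) (r : ℂ) (k : ℕ) :
    ((X - C r) ^ n).coeff k = (n.choose k : ℂ) * (-r) ^ (n - k) := by
  have e : (X - C r : ℂ[X]) = X + C (-r) := by rw [map_neg, sub_eq_add_neg]
  rw [e, coeff_X_add_C_pow, mul_comm]

/-- the norm of the powers -/
theorem norm_pow_le {n : ℕ} (T : Matrix (Fin n) (Fin n) ℂ) (hT : ‖T‖ ≤ 1) (k : ℕ) :
    ‖T ^ k‖ ≤ 1 := by
  rcases k with _ | k
  · rw [pow_zero, Matrix.linfty_opNorm_def]
    have h1 : (Finset.univ.sup fun i : Fin n => ∑ j, ‖(1 : Matrix (Fin n) (Fin n) ℂ) i j‖₊) ≤ 1 := by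
      refine Finset.sup_le fun i _ => ?_
      rw [Finset.sum_eq_single i (fun j _ hj => by simp [Matrix.one_apply_ne hj.symm]) (by simp)]
      simp
    exact_mod_cast h1
  · exact (norm_pow_le' T (Nat.succ_pos k)).trans (pow_le_one₀ (norm_nonneg _) hT)

/-- the powers as combinations -/
theorem pow_eq {n : ℕ} (hn : 0 < n) (T : Matrix (Fin n) (Fin n) ℂ) (L : List ℂ) (hL : L.length = n)
    (hP : aeval T (P L) = 0) (q : ℕ) :
    T ^ q = ∑ k ∈ Finset.range n, (R L q).coeff k • T ^ k := by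
  obtain ⟨Q, hQ⟩ := dvd_R L q
  have h1 : aeval T (X ^ q - R L q) = 0 := by rw [hQ, map_mul, hP, zero_mul]
  rw [map_sub, map_pow, aeval_X, sub_eq_zero] at h1
  rw [h1, aeval_eq_sum_range' (n := n)]
  by_cases h0 : R L q = 0
  · rw [h0, natDegree_zero]
    exact hn
  · rw [Polynomial.natDegree_lt_iff_degree_lt h0, Polynomial.degree_lt_iff_coeff_zero]
    intro m hm
    exact coeff_large L q m (by omega)

/-- the upper bound -/
theorem upper {n : ℕ} (hn : 0 < n) {r : ℝ} (hr : 0 ≤ r) (T : Matrix (Fin n) (Fin n) ℂ)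
    (hT : ‖T‖ ≤ 1) (hs : ∀ z ∈ spectrum ℂ T, ‖z‖ ≤ r) (q : ℕ) (hq : n ≤ q + 1) :
    ‖T ^ q‖ ≤ ∑ k ∈ Finset.range n, ‖(R (List.replicate n (r : ℂ)) q).coeff k‖ := by
  set L := T.charpoly.roots.toList with hL
  have hcard : L.length = n := by
    rw [hL, Multiset.length_toList, IsAlgClosed.card_roots_eq_natDegree, Matrix.charpoly_natDegree_eq_dim]
    simp
  have hPL : P L = T.charpoly := by
    have h1 := (IsAlgClosed.splits T.charpoly).eq_prod_roots_of_monic (Matrix.charpoly_monic T)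
    rw [P, hL, Multiset.prod_map_toList]
    exact h1.symm
  have hroot : ∀ a ∈ L, ‖a‖ ≤ r := by
    intro a ha
    have h1 : a ∈ T.charpoly.roots := by rw [hL] at ha; exact Multiset.mem_toList.1 ha
    exact hs a (Matrix.mem_spectrum_iff_isRoot_charpoly.2 (isRoot_of_mem_roots h1))
  have hCH : aeval T (P L) = 0 := by rw [hPL]; exact Matrix.aeval_self_charpoly T
  rw [pow_eq hn T L hcard hCH q]
  refine (norm_sum_le _ _).trans (Finset.sum_le_sum fun k _ => ?_)
  have h2 := coeff_bound hr L hroot q (by omega) k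
  rw [hcard] at h2
  rw [norm_smul, map_R, coeff_map]
  have h3 : ‖(algebraMap ℝ ℂ) ((R (List.replicate n r) q).coeff k)‖ = |co r n q k| := by
    rw [Complex.coe_algebraMap, Complex.norm_real, Real.norm_eq_abs, co]
  rw [h3]
  have h4 : (-1 : ℝ) ^ (n + k + 1) * co r n q k ≤ |co r n q k| := by
    refine (le_abs_self _).trans (le_of_eq ?_)
    rw [abs_mul, abs_pow, abs_neg, abs_one, one_pow, one_mul]
  have h5 := norm_pow_le T hT k
  calc ‖(R L q).coeff k‖ * ‖T ^ k‖ ≤ ‖(R L q).coeff k‖ * 1 :=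
        mul_le_mul_of_nonneg_left h5 (norm_nonneg _)
    _ ≤ _ := by rw [mul_one]; exact h2.trans h4

/-! ### The companion matrix -/

theorem Tr_row {n : ℕ} (r : ℝ) (i j : Fin n) (h : (i : ℕ) + 1 ≠ n) :
    Tr n r i j = if (i : ℕ) + 1 = j then 1 else 0 := by
  rw [Tr, if_neg h]

theorem Tr_last {n : ℕ} (r : ℝ) (i j : Fin n) (h : (i : ℕ) + 1 = n) :
    Tr n r i j = -(((X - C (r : ℂ)) ^ n).coeff j) := by
  rw [Tr, if_pos h, coeff_P n (r : ℂ) j]

theorem Tr_pow {n : ℕ} (hn : 0 < n) (r : ℝ) : ∀ k, k < n → ∀ j : Fin n,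
    (Tr n r ^ k) ⟨0, hn⟩ j = if (j : ℕ) = k then 1 else 0 := by
  intro k
  induction k with
  | zero =>
    intro _ j
    rw [pow_zero, Matrix.one_apply]
    congr 1
    rw [Fin.ext_iff]
    exact propext ⟨fun h => h.symm, fun h => h.symm⟩
  | succ k ih =>
    intro hk j
    rw [pow_succ, Matrix.mul_apply]
    have h1 := ih (by omega)
    rw [Finset.sum_eq_single (⟨k, by omega⟩ : Fin n)]
    · rw [h1, if_pos rfl, one_mul, Tr_row r _ _ (by simp only; omega)]
      congr 1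
      exact propext ⟨fun h => h.symm, fun h => h.symm⟩
    · intro i _ hi
      rw [h1, if_neg (fun h => hi (Fin.ext h)), zero_mul]
    · simp

theorem Tr_pow_n {n : ℕ} (hn : 0 < n) (r : ℝ) (j : Fin n) :
    (Tr n r ^ n) ⟨0, hn⟩ j = -(((X - C (r : ℂ)) ^ n).coeff j) := by
  obtain ⟨m, rfl⟩ : ∃ m, n = m + 1 := ⟨n - 1, by omega⟩
  rw [pow_succ, Matrix.mul_apply, Finset.sum_eq_single (⟨m, by omega⟩ : Fin (m + 1))]
  · rw [Tr_pow hn r m (by omega), if_pos rfl, one_mul, Tr_last r _ _ rfl]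
  · intro i _ hi
    rw [Tr_pow hn r m (by omega), if_neg (fun h => hi (Fin.ext h)), zero_mul]
  · simp

theorem Tr_annih {n : ℕ} (hn : 0 < n) (r : ℝ) : aeval (Tr n r) ((X - C (r : ℂ)) ^ n) = 0 := by
  set p : ℂ[X] := (X - C (r : ℂ)) ^ n with hp
  have hdeg : p.natDegree = n := by
    rw [hp, natDegree_pow, natDegree_X_sub_C, mul_one]
  have hmon : p.coeff n = 1 := by
    have : p.Monic := (monic_X_sub_C _).pow n
    have h := this.coeff_natDegree
    rwa [hdeg] at h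
  have h0 : ∀ j : Fin n, (aeval (Tr n r) p) ⟨0, hn⟩ j = 0 := by
    intro j
    rw [aeval_eq_sum_range, hdeg, Matrix.sum_apply, Finset.sum_range_succ]
    have h1 : ∑ k ∈ Finset.range n, (p.coeff k • Tr n r ^ k) ⟨0, hn⟩ j = p.coeff j := by
      rw [Finset.sum_eq_single (j : ℕ)]
      · rw [Matrix.smul_apply, Tr_pow hn r j j.2, if_pos rfl, smul_eq_mul, mul_one]
      · intro k hk hkj
        rw [Matrix.smul_apply, Tr_pow hn r k (Finset.mem_range.1 hk), if_neg (Ne.symm hkj),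
          smul_zero]
      · intro h; exact absurd (Finset.mem_range.2 j.2) h
    rw [h1, Matrix.smul_apply, Tr_pow_n hn r j, hmon, one_smul, ← hp]
    ring
  ext i j
  have h2 : (Tr n r ^ (i : ℕ) * aeval (Tr n r) p) ⟨0, hn⟩ j = (aeval (Tr n r) p) i j := by
    rw [Matrix.mul_apply, Finset.sum_eq_single i]
    · rw [Tr_pow hn r i i.2, if_pos rfl, one_mul]
    · intro l _ hl
      rw [Tr_pow hn r i i.2, if_neg (fun h => hl (Fin.ext h)), zero_mul]
    · simp
  have h3 : Tr n r ^ (i : ℕ) * aeval (Tr n r) p = aeval (Tr n r) p * Tr n r ^ (i : ℕ) := by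
    have e : Tr n r ^ (i : ℕ) = aeval (Tr n r) ((X : ℂ[X]) ^ (i : ℕ)) := by simp
    rw [e, ← map_mul, ← map_mul, mul_comm]
  rw [← h2, h3, Matrix.mul_apply]
  simp [h0]

theorem Tr_spec {n : ℕ} (hn : 0 < n) {r : ℝ} (hr : 0 ≤ r) : ∀ z ∈ spectrum ℂ (Tr n r), ‖z‖ ≤ r := by
  intro z hz
  have h1 := spectrum.subset_polynomial_aeval (Tr n r) ((X - C (r : ℂ)) ^ n) ⟨z, hz, rfl⟩
  rw [Tr_annih hn r] at h1
  have : Nonempty (Fin n) := ⟨⟨0, hn⟩⟩
  rw [spectrum.zero_eq, Set.mem_singleton_iff] at h1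
  simp only [eval_pow, eval_sub, eval_X, eval_C] at h1
  have h2 : z = r := sub_eq_zero.1 (pow_eq_zero_iff hn.ne' |>.1 h1)
  rw [h2, Complex.norm_real, Real.norm_eq_abs, abs_of_nonneg hr]

theorem Tr_norm {n : ℕ} {r : ℝ} (hr : 0 ≤ r) (hr2 : (1 + r) ^ n ≤ 2) : ‖Tr n r‖ ≤ 1 := by
  rw [Matrix.linfty_opNorm_def]
  have h1 : (Finset.univ.sup fun i : Fin n => ∑ j, ‖Tr n r i j‖₊) ≤ 1 := by
    refine Finset.sup_le fun i _ => ?_
    rw [← NNReal.coe_le_coe]
    push_cast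
    by_cases hi : (i : ℕ) + 1 = n
    · have e : ∀ j : Fin n, ‖Tr n r i j‖ = (n.choose j : ℝ) * r ^ (n - j) := by
        intro j
        rw [Tr, if_pos hi, norm_neg, norm_mul, norm_pow, norm_neg, Complex.norm_real,
          Real.norm_eq_abs, abs_of_nonneg hr, Complex.norm_natCast]
      simp only [e]
      rw [Fin.sum_univ_eq_sum_range (fun j => (n.choose j : ℝ) * r ^ (n - j)) n]
      have h2 : (1 + r) ^ n = ∑ j ∈ Finset.range (n + 1), (n.choose j : ℝ) * r ^ (n - j) := by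
        rw [add_pow]
        refine Finset.sum_congr rfl fun j _ => ?_
        rw [one_pow, one_mul, mul_comm]
      rw [Finset.sum_range_succ] at h2
      simp at h2
      linarith
    · have hlt : (i : ℕ) + 1 < n := by omega
      rw [Finset.sum_eq_single (⟨(i : ℕ) + 1, hlt⟩ : Fin n)]
      · rw [Tr_row r _ _ hi, if_pos rfl]; simp
      · intro j _ hj
        rw [Tr_row r _ _ hi, if_neg (fun h => hj (Fin.ext h.symm)), norm_zero]
      · simp
  exact_mod_cast h1

theorem P_replicate (n : ℕ) (a : ℂ) : P (List.replicate n a) = (X - C a) ^ n := by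
  rw [P, List.map_replicate, List.prod_replicate]

/-- the lower bound -/
theorem lower {n : ℕ} (hn : 0 < n) (r : ℝ) (q : ℕ) :
    ∑ k ∈ Finset.range n, ‖(R (List.replicate n (r : ℂ)) q).coeff k‖ ≤ ‖Tr n r ^ q‖ := by
  have h1 := pow_eq hn (Tr n r) (List.replicate n (r : ℂ)) (by simp)
    (by rw [P_replicate]; exact Tr_annih hn r) q
  have h2 : ∀ j : Fin n, (Tr n r ^ q) ⟨0, hn⟩ j = (R (List.replicate n (r : ℂ)) q).coeff j := by
    intro j
    rw [h1, Matrix.sum_apply, Finset.sum_eq_single (j : ℕ)]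
    · rw [Matrix.smul_apply, Tr_pow hn r j j.2, if_pos rfl, smul_eq_mul, mul_one]
    · intro k hk hkj
      rw [Matrix.smul_apply, Tr_pow hn r k (Finset.mem_range.1 hk), if_neg (Ne.symm hkj), smul_zero]
    · intro h; exact absurd (Finset.mem_range.2 j.2) h
  rw [Matrix.linfty_opNorm_def, ← Fin.sum_univ_eq_sum_range
    (fun k => ‖(R (List.replicate n (r : ℂ)) q).coeff k‖) n]
  have h3 : (∑ j, ‖(Tr n r ^ q) ⟨0, hn⟩ j‖₊) ≤
      Finset.univ.sup fun i : Fin n => ∑ j, ‖(Tr n r ^ q) i j‖₊ :=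
    Finset.le_sup (f := fun i : Fin n => ∑ j, ‖(Tr n r ^ q) i j‖₊) (Finset.mem_univ _)
  have h4 := NNReal.coe_le_coe.2 h3
  push_cast at h4
  simpa [h2] using h4

end Pool.Agent.HX6.CE
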