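import Pool.Agent.HX6.CE.B

/-!
# Powers of matrices and spectral radius: the value
-/

set_option autoImplicit false

namespace Pool.Agent.HX6.CE

open Polynomial Matrix
open scoped Matrix.Norms.Operator

/-- the value -/
noncomputable def val (n m : ℕ) (r : ℝ) : ℝ :=
  ∑ j ∈ Finset.range n, (-1) ^ (n - 1 - j) * (m.choose j : ℝ) * r ^ (m - j) * (1 + r) ^ j

theorem eval_R (r w : ℝ) (n : ℕ) : ∀ q, (R (List.replicate n r) q).eval w =
    ∑ j ∈ Finset.range n, (q.choose j : ℝ) * r ^ (q - j) * (w - r) ^ j := by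
  induction n with
  | zero => intro q; simp [R_nil]
  | succ n ih =>
    intro q
    induction q with
    | zero =>
      rw [List.replicate_succ, R_zero, Finset.sum_range_succ']
      simp
    | succ q ihq =>
      have h1 : (R (List.replicate (n + 1) r) (q + 1)).eval w =
          r * (R (List.replicate (n + 1) r) q).eval w + (w - r) * (R (List.replicate n r) q).eval w := by
        rw [List.replicate_succ, R_succ]
        simp
      have h2 : ∀ j, ((q + 1).choose (j + 1) : ℝ) * r ^ (q + 1 - (j + 1)) * (w - r) ^ (j + 1) =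
          r * ((q.choose (j + 1) : ℝ) * r ^ (q - (j + 1)) * (w - r) ^ (j + 1)) +
            (w - r) * ((q.choose j : ℝ) * r ^ (q - j) * (w - r) ^ j) := by
        intro j
        rw [Nat.choose_succ_succ, Nat.add_sub_add_right]
        push_cast
        rcases Nat.lt_or_ge j q with hj | hj
        · have e : q - j = (q - (j + 1)) + 1 := by omega
          rw [e, pow_succ, pow_succ]; ring
        · rw [Nat.choose_eq_zero_of_lt (show q < j + 1 by omega), pow_succ]
          push_cast
          ring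
      rw [h1, ihq, ih q, Finset.sum_range_succ', Finset.sum_range_succ', Finset.mul_sum]
      simp only [h2]
      rw [Finset.sum_add_distrib, mul_add, Finset.mul_sum]
      have h3 : r ^ (q + 1 - 0) = r * r ^ (q - 0) := by
        rw [Nat.sub_zero, Nat.sub_zero, pow_succ]; ring
      rw [h3]
      simp
      ring

theorem sum_norm {r : ℝ} (hr : 0 ≤ r) {n : ℕ} (hn : 0 < n) (q : ℕ) (hq : n ≤ q + 1) :
    ∑ k ∈ Finset.range n, ‖(R (List.replicate n (r : ℂ)) q).coeff k‖ = val n q r := by
  have h1 : ∀ k, ‖(R (List.replicate n (r : ℂ)) q).coeff k‖ = (-1) ^ (n + k + 1) * co r n q k := by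
    intro k
    have hb := coeff_bound hr (List.replicate n (r : ℂ)) (fun a ha => by
      rw [List.eq_of_mem_replicate ha, Complex.norm_real, Real.norm_eq_abs, abs_of_nonneg hr])
      q (by simpa using hq) k
    rw [List.length_replicate] at hb
    refine le_antisymm hb ?_
    rw [map_R, coeff_map, Complex.coe_algebraMap, Complex.norm_real, Real.norm_eq_abs]
    refine (le_abs_self _).trans (le_of_eq ?_)
    rw [abs_mul, abs_pow, abs_neg, abs_one, one_pow, one_mul, co]
  simp only [h1]
  have h2 : (R (List.replicate n r) q).eval (-1) =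
      ∑ k ∈ Finset.range n, co r n q k * (-1) ^ k := by
    rw [eval_eq_sum_range' (n := n)]
    · rfl
    · by_cases h0 : R (List.replicate n r) q = 0
      · rw [h0, natDegree_zero]; exact hn
      · rw [Polynomial.natDegree_lt_iff_degree_lt h0, Polynomial.degree_lt_iff_coeff_zero]
        intro m hm
        exact coeff_large _ q m (by simpa using hm)
  have h3 : ∑ k ∈ Finset.range n, (-1 : ℝ) ^ (n + k + 1) * co r n q k =
      (-1) ^ (n + 1) * (R (List.replicate n r) q).eval (-1) := by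
    rw [h2, Finset.mul_sum]
    refine Finset.sum_congr rfl fun k _ => ?_
    rw [show n + k + 1 = (n + 1) + k by ring, pow_add]; ring
  rw [h3, eval_R, val, Finset.mul_sum]
  refine Finset.sum_congr rfl fun j hj => ?_
  have hj' := Finset.mem_range.1 hj
  have e1 : (-1 - r : ℝ) ^ j = (-1) ^ j * (1 + r) ^ j := by rw [← mul_pow]; congr 1; ring
  have e2 : (-1 : ℝ) ^ (n + 1) * (-1) ^ j = (-1) ^ (n - 1 - j) := by
    have : n + 1 + j = (n - 1 - j) + 2 * (j + 1) := by omega
    rw [← pow_add, this, pow_add, pow_mul]; norm_num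
  rw [e1, ← e2]; ring

/-- **The maximum for small `r`.** -/
theorem main {n : ℕ} (hn : 0 < n) {r : ℝ} (hr : 0 ≤ r) (hr2 : (1 + r) ^ n ≤ 2) (m : ℕ)
    (hm : n ≤ m + 1) :
    ‖Tr n r‖ ≤ 1 ∧ (∀ z ∈ spectrum ℂ (Tr n r), ‖z‖ ≤ r) ∧ ‖Tr n r ^ m‖ = val n m r ∧
      ∀ T : Matrix (Fin n) (Fin n) ℂ, ‖T‖ ≤ 1 → (∀ z ∈ spectrum ℂ T, ‖z‖ ≤ r) →
        ‖T ^ m‖ ≤ val n m r := by
  have h1 := Tr_norm hr hr2 (n := n)
  have h2 := Tr_spec hn hr
  have h3 : ∀ T : Matrix (Fin n) (Fin n) ℂ, ‖T‖ ≤ 1 → (∀ z ∈ spectrum ℂ T, ‖z‖ ≤ r) →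
        ‖T ^ m‖ ≤ val n m r := fun T hT hs => by
    rw [← sum_norm hr hn m hm]; exact upper hn hr T hT hs m hm
  refine ⟨h1, h2, le_antisymm (h3 _ h1 h2) ?_, h3⟩
  rw [← sum_norm hr hn m hm]
  exact lower hn r m

end Pool.Agent.HX6.CE
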